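import Mathlib

set_option autoImplicit false

namespace Pool.Agent.Results.MP_148e9f_nt.AlmostAll

/-- The finite set of unordered pairs of components of `n`, written as ordered pairs `(a,b)` with `1 < a ≤ b`,
`a * b = n` and `B(a,b)` an integer, i.e. `2(a+1)(b+1) ∣ (a+b)^2 + (ab+1)^2`. -/
def componentPairs (n : ℕ) : Finset (ℕ × ℕ) :=
  n.divisorsAntidiagonal.filter (fun p => 1 < p.1 ∧ p.1 ≤ p.2 ∧
    2 * (p.1 + 1) * (p.2 + 1) ∣ (p.1 + p.2) ^ 2 + (p.1 * p.2 + 1) ^ 2)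

/-- auxiliary sequence -/
def w (K : ℤ) : ℕ → ℤ
  | 0 => 0
  | 1 => 1
  | (j + 2) => (K - 2) * w K (j + 1) + 2 - w K j

theorem w_succ (K : ℤ) (j : ℕ) : w K (j + 2) = (K - 2) * w K (j + 1) + 2 - w K j := rfl

theorem chain (K : ℤ) (hK : 1 ≤ K) : ∀ s : ℕ, ∀ A B : ℤ, 1 ≤ A → A ≤ B → A ≤ s → Even A → Even B →
    (A + B - 2) ^ 2 = K * A * B → ∃ j, A = 2 * w K (j + 1) ∧ B = 2 * w K (j + 2) := by
  intro s
  induction s with
  | zero => intro A B h1 h2 h3; exfalso; push_cast at h3; omega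
  | succ s ih =>
    intro A B h1 h2 h3 hA hB h
    by_cases hA2 : A = 2
    · subst hA2
      have h4 : B * (B - 2 * K) = 0 := by linear_combination h
      have h5 : B = 2 * K := by
        rcases mul_eq_zero.1 h4 with h6 | h6
        · omega
        · omega
      refine ⟨0, ?_, ?_⟩
      · simp [w]
      · rw [w_succ]; simp [w]; exact h5
    · have hA4 : 4 ≤ A := by
        obtain ⟨r, hr⟩ := hA
        omega
      obtain ⟨A', hA'⟩ : ∃ A', A' = (K - 2) * A + 4 - B := ⟨_, rfl⟩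
      have e1 : A' * B = (A - 2) ^ 2 := by rw [hA']; linear_combination -h
      have hpos : 0 < A' := by
        by_contra hc
        push Not at hc
        have : A' * B ≤ 0 := mul_nonpos_of_nonpos_of_nonneg hc (by omega)
        have : 0 < (A - 2) ^ 2 := by have : 0 < A - 2 := by omega
                                     positivity
        omega
      have hlt : A' < A := by
        by_contra hc
        push Not at hc
        have : A * A ≤ A' * B := mul_le_mul hc h2 (by omega) (by omega)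
        nlinarith
      have hev : Even A' := by
        rw [hA']
        exact (((hA.mul_left (K - 2)).add (by decide)).sub hB)
      have e2 : (A' + A - 2) ^ 2 = K * A' * A := by
        have h7 : A' * (A' + 2 * A - 4 - K * A) = - (A' * B) := by rw [hA']; ring
        linear_combination h7 - e1
      obtain ⟨j, hj1, hj2⟩ := ih A' A (by omega) (by omega) (by push_cast at h3; omega) hev hA e2
      refine ⟨j + 1, hj2, ?_⟩
      rw [w_succ]
      have : B = (K - 2) * A + 4 - A' := by rw [hA']; ring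
      rw [this, hj2, hj1]; ring

theorem w_mono4 (K : ℤ) (hK : 4 ≤ K) : ∀ j, 0 ≤ w K j ∧ w K j + 1 ≤ w K (j + 1) := by
  intro j
  induction j with
  | zero => simp [w]
  | succ j ih =>
    refine ⟨by omega, ?_⟩
    rw [w_succ]
    nlinarith [ih.1, ih.2]

theorem w_two (K : ℤ) (hK : 5 ≤ K) : ∀ j, 0 ≤ w K j ∧ 2 * w K j + 1 ≤ w K (j + 1) := by
  intro j
  induction j with
  | zero => simp [w]
  | succ j ih =>
    refine ⟨by omega, ?_⟩
    rw [w_succ]
    nlinarith [ih.1, ih.2]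

theorem w_pow (K : ℤ) (hK : 5 ≤ K) : ∀ j, 2 ^ j ≤ w K j + 1 := by
  intro j
  induction j with
  | zero => simp [w]
  | succ j ih =>
    have := w_two K hK j
    rw [pow_succ]
    omega

theorem w_lt (K L : ℤ) (hK : 4 ≤ K) (hKL : K < L) : ∀ j, w K j ≤ w L j ∧
    w L j - w K j ≤ w L (j + 1) - w K (j + 1) := by
  intro j
  induction j with
  | zero => simp [w]
  | succ j ih =>
    refine ⟨by omega, ?_⟩
    rw [w_succ, w_succ]
    have h1 := (w_mono4 L (by omega) (j + 1)).1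
    have h2 : 0 ≤ (L - K) * w L (j + 1) := mul_nonneg (by omega) h1
    have h3 : 0 ≤ (K - 4) * (w L (j + 1) - w K (j + 1)) := mul_nonneg (by omega) (by omega)
    nlinarith [ih.1, ih.2]

theorem w_lt' (K L : ℤ) (hK : 4 ≤ K) (hKL : K < L) (j : ℕ) : w K (j + 2) < w L (j + 2) := by
  induction j with
  | zero => simp [w]; omega
  | succ j ih =>
    have := (w_lt K L hK hKL (j + 2)).2
    have e : j + 1 + 2 = j + 2 + 1 := by ring
    rw [e]
    omega


theorem getK {n a b : ℕ} (hn : Odd n) (hab : a * b = n) (h1 : 1 < a) (h2 : a ≤ b)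
    (h3 : 2 * (a + 1) * (b + 1) ∣ (a + b) ^ 2 + (a * b + 1) ^ 2) (h35 : n ≠ 35) :
    ∃ (K : ℤ) (j : ℕ), 4 ≤ K ∧ 1 ≤ j ∧ (a : ℤ) + 1 = 2 * w K (j + 1) ∧ (b : ℤ) + 1 = 2 * w K (j + 2) := by
  have ho : Odd (a * b) := hab ▸ hn
  obtain ⟨hoa, hob⟩ := Nat.odd_mul.1 ho
  obtain ⟨α, hα⟩ := hoa
  obtain ⟨β, hβ⟩ := hob
  obtain ⟨c, hc⟩ := h3
  have hc' : ((a : ℤ) + b) ^ 2 + (a * b + 1) ^ 2 = 2 * (a + 1) * (b + 1) * c := by exact_mod_cast hc
  have hα' : (a : ℤ) = 2 * α + 1 := by exact_mod_cast hα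
  have hβ' : (b : ℤ) = 2 * β + 1 := by exact_mod_cast hβ
  obtain ⟨K, hK⟩ : ∃ K : ℤ, K = c + ((a : ℤ) + b) - (α + 1) * (b + 1) := ⟨_, rfl⟩
  have e : ((a : ℤ) + b) ^ 2 = K * (a + 1) * (b + 1) := by
    rw [hK]
    have : 2 * ((a : ℤ) + b) ^ 2 = 2 * ((c + ((a : ℤ) + b) - (α + 1) * (b + 1)) * (a + 1) * (b + 1)) := by
      rw [hα'] at hc' ⊢
      linear_combination hc'
    linarith
  have ha1 : (1 : ℤ) < a := by exact_mod_cast h1
  have hb1 : (a : ℤ) ≤ b := by exact_mod_cast h2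
  have hK1 : 1 ≤ K := by
    by_contra hc
    have : K ≤ 0 := by omega
    have h6 : K * ((a + 1) * (b + 1)) ≤ 0 := mul_nonpos_of_nonpos_of_nonneg this (by positivity)
    nlinarith
  have hK4 : 4 ≤ K := by
    by_contra hc
    push Not at hc
    have hp : (0 : ℤ) ≤ (a + 1) * (b + 1) := by positivity
    have h7 : K * ((a + 1) * (b + 1)) ≤ 3 * (((a : ℤ) + 1) * (b + 1)) :=
      mul_le_mul_of_nonneg_right (by omega) hp
    have h8 : (a : ℤ) + b < 14 := by nlinarith [sq_nonneg ((a : ℤ) - b)]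
    have h9 : α ≤ 6 := by omega
    have h10 : β ≤ 6 := by omega
    have h11 : 1 ≤ α := by omega
    have h12 : 1 ≤ β := by omega
    subst hα hβ
    interval_cases α <;> interval_cases β <;> first | omega | (exfalso; apply h35; omega)
  obtain ⟨j, hj1, hj2⟩ := chain K hK1 (a + 1) (a + 1) (b + 1) (by omega) (by omega) (by push_cast; omega)
    ⟨(α : ℤ) + 1, by rw [hα']; ring⟩ ⟨(β : ℤ) + 1, by rw [hβ']; ring⟩ (by rw [← e]; ring)
  refine ⟨K, j, hK4, ?_, hj1, hj2⟩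
  rcases Nat.eq_zero_or_pos j with h0 | h0
  · subst h0
    simp [w] at hj1
    omega
  · exact h0

/-- relation used for counting -/
def R (p : ℕ × ℕ) (j : ℕ) : Prop :=
  (j = 0 ∧ ∃ i : ℕ, (p.1 : ℤ) + 1 = 2 * w 4 (i + 1) ∧ (p.2 : ℤ) + 1 = 2 * w 4 (i + 2)) ∨
  (1 ≤ j ∧ ∃ K : ℤ, 5 ≤ K ∧ (p.1 : ℤ) + 1 = 2 * w K (j + 1) ∧ (p.2 : ℤ) + 1 = 2 * w K (j + 2))

theorem mul_ne {a b c d : ℕ} (h : a < c) (h' : b < d) (e : a * b = c * d) : False := by
  have : a * b < c * d := Nat.mul_lt_mul'' h h'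
  omega

theorem w4_strict : StrictMono (w 4) := strictMono_nat_of_lt_succ (fun j => by
  have := (w_mono4 4 le_rfl j).2
  omega)

theorem aux4 {a b c d i i' : ℕ} (e : a * b = c * d) (hlt : i < i')
    (h1 : (a : ℤ) + 1 = 2 * w 4 (i + 1)) (h2 : (b : ℤ) + 1 = 2 * w 4 (i + 2))
    (h3 : (c : ℤ) + 1 = 2 * w 4 (i' + 1)) (h4 : (d : ℤ) + 1 = 2 * w 4 (i' + 2)) : False := by
  have g1 := w4_strict (show i + 1 < i' + 1 by omega)
  have g2 := w4_strict (show i + 2 < i' + 2 by omega)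
  exact mul_ne (show a < c by omega) (show b < d by omega) e

theorem auxK {a b c d j : ℕ} {K L : ℤ} (hj : 1 ≤ j) (hK : 5 ≤ K) (e : a * b = c * d) (hlt : K < L)
    (h1 : (a : ℤ) + 1 = 2 * w K (j + 1)) (h2 : (b : ℤ) + 1 = 2 * w K (j + 2))
    (h3 : (c : ℤ) + 1 = 2 * w L (j + 1)) (h4 : (d : ℤ) + 1 = 2 * w L (j + 2)) : False := by
  obtain ⟨i, rfl⟩ := Nat.exists_eq_add_of_le' hj
  have g1 := w_lt' K L (by omega) hlt i
  have g2 := w_lt' K L (by omega) hlt (i + 1)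
  have e1 : i + 1 + 1 = i + 2 := rfl
  rw [e1] at h1 h3
  exact mul_ne (show a < c by omega) (show b < d by omega) e


/-- The odd `n ≤ X` with at least two unordered pairs of components. -/
def exceptional (X : ℕ) : Finset ℕ :=
  (Finset.range (X + 1)).filter (fun n => Odd n ∧ 2 ≤ (componentPairs n).card)

/-- The crystals `n ≤ X`. -/
def crystals (X : ℕ) : Finset ℕ :=
  (Finset.range (X + 1)).filter (fun n => Odd n ∧ 1 ≤ (componentPairs n).card)

theorem w4_lower : ∀ j : ℕ, (j : ℤ) ≤ w 4 j ∧ w 4 j = j ^ 2 := by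
  have : ∀ j : ℕ, w 4 j = (j : ℤ) ^ 2 ∧ w 4 (j + 1) = ((j : ℤ) + 1) ^ 2 := by
    intro j
    induction j with
    | zero => simp [w]
    | succ j ih =>
      refine ⟨by push_cast; exact ih.2, ?_⟩
      rw [w_succ, ih.1, ih.2]; push_cast; ring
  intro j
  refine ⟨?_, (this j).1⟩
  rw [(this j).1]
  rcases Nat.eq_zero_or_pos j with h | h
  · subst h; simp
  · have : (1 : ℤ) ≤ j := by exact_mod_cast h
    nlinarith

theorem w_three (K : ℤ) : w K 3 = (K - 1) ^ 2 := by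
  simp [w]; ring

theorem w_four (K : ℤ) : w K 4 = K * (K - 2) ^ 2 := by
  simp [w]; ring

theorem w_monotone (K : ℤ) (hK : 4 ≤ K) : Monotone (w K) := monotone_nat_of_le_succ (fun j => by
  have := (w_mono4 K hK j).2
  omega)

/-- counting function for exceptional numbers: `(K, j)` with `K = 4` or `K ≥ 5` -/
theorem exc_data {n : ℕ} (hn : Odd n) (h2 : 2 ≤ (componentPairs n).card) :
    ∃ (K : ℤ) (j a b : ℕ), 4 ≤ K ∧ 2 ≤ j ∧ (a : ℤ) + 1 = 2 * w K (j + 1) ∧ (b : ℤ) + 1 = 2 * w K (j + 2) ∧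
      a * b = n := by
  have h35 : n ≠ 35 := by
    rintro rfl
    have : (componentPairs 35).card ≤ 1 := by decide +kernel
    omega
  obtain ⟨p, hp, q, hq, hpq⟩ := Finset.one_lt_card.1 (show 1 < (componentPairs n).card by omega)
  rw [componentPairs, Finset.mem_filter, Nat.mem_divisorsAntidiagonal] at hp hq
  obtain ⟨⟨hp1, hp0⟩, hp2, hp3, hp4⟩ := hp
  obtain ⟨⟨hq1, hq0⟩, hq2, hq3, hq4⟩ := hq
  obtain ⟨K, j, hK, hj, a1, a2⟩ := getK hn hp1 hp2 hp3 hp4 h35
  obtain ⟨L, i, hL, hi, b1, b2⟩ := getK hn hq1 hq2 hq3 hq4 h35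
  by_cases hj2 : 2 ≤ j
  · exact ⟨K, j, p.1, p.2, hK, hj2, a1, a2, hp1⟩
  by_cases hi2 : 2 ≤ i
  · exact ⟨L, i, q.1, q.2, hL, hi2, b1, b2, hq1⟩
  exfalso
  have hj' : j = 1 := by omega
  have hi' : i = 1 := by omega
  subst hj' hi'
  have e : p.1 * p.2 = q.1 * q.2 := by rw [hp1, hq1]
  rcases lt_trichotomy K L with h | h | h
  · have g1 := w_lt' K L hK h 0
    have g2 := w_lt' K L hK h 1
    simp only [Nat.zero_add, Nat.reduceAdd] at g1 g2 a1 a2 b1 b2
    exact mul_ne (show p.1 < q.1 by omega) (show p.2 < q.2 by omega) e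
  · subst h
    apply hpq
    ext <;> omega
  · have g1 := w_lt' L K hL h 0
    have g2 := w_lt' L K hL h 1
    simp only [Nat.zero_add, Nat.reduceAdd] at g1 g2 a1 a2 b1 b2
    exact mul_ne (show q.1 < p.1 by omega) (show q.2 < p.2 by omega) e.symm

/-- number attached to `(K, j)` -/
def F (x : ℕ × ℕ) : ℕ := ((2 * w x.1 (x.2 + 1) - 1) * (2 * w x.1 (x.2 + 2) - 1)).toNat

theorem exc_card (X s t : ℕ) (hs : X < s ^ 5) (ht : X < t ^ 4) :
    (exceptional X).card ≤ t + (s + 2) * (Nat.log 2 X / 2 + 1) := by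
  have hsub : exceptional X ⊆ (({4} ×ˢ Finset.range t) ∪
      (Finset.range (s + 2) ×ˢ Finset.range (Nat.log 2 X / 2 + 1))).image F := by
    intro n hn
    rw [exceptional, Finset.mem_filter, Finset.mem_range] at hn
    obtain ⟨hnX, hno, hn2⟩ := hn
    obtain ⟨K, j, a, b, hK, hj, e1, e2, hab⟩ := exc_data hno hn2
    have hKn : ((K.toNat : ℕ) : ℤ) = K := Int.toNat_of_nonneg (by omega)
    have hF : F (K.toNat, j) = n := by
      simp only [F, hKn]
      rw [← e1, ← e2]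
      have : ((a : ℤ) + 1 - 1) * ((b : ℤ) + 1 - 1) = ((a * b : ℕ) : ℤ) := by push_cast; ring
      rw [this, hab]; simp
    rw [Finset.mem_image]
    refine ⟨(K.toNat, j), ?_, hF⟩
    rw [Finset.mem_union, Finset.mem_product, Finset.mem_product]
    by_cases hK4 : K = 4
    · left
      subst hK4
      refine ⟨by simp, ?_⟩
      rw [Finset.mem_range]
      by_contra hc
      push Not at hc
      simp only at hc
      have c1 := (w4_lower (j + 1)).2
      have c2 := (w4_lower (j + 2)).2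
      push_cast at c1 c2
      have d1 : t ^ 2 ≤ a := by
        have : (t : ℤ) ^ 2 ≤ (j : ℤ) ^ 2 := by
          have : (t : ℤ) ≤ j := by exact_mod_cast hc
          gcongr
        zify
        nlinarith
      have d2 : t ^ 2 ≤ b := by
        have : (t : ℤ) ^ 2 ≤ (j : ℤ) ^ 2 := by
          have : (t : ℤ) ≤ j := by exact_mod_cast hc
          gcongr
        zify
        nlinarith
      have d3 : t ^ 4 ≤ n := by
        calc t ^ 4 = t ^ 2 * t ^ 2 := by ring
          _ ≤ a * b := Nat.mul_le_mul d1 d2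
          _ = n := hab
      omega
    · right
      have hK5 : 5 ≤ K := by omega
      refine ⟨?_, ?_⟩
      · rw [Finset.mem_range]
        by_contra hc
        push Not at hc
        simp only at hc
        have hc' : (s : ℤ) + 2 ≤ K := by rw [← hKn]; exact_mod_cast hc
        have m1 : w K 3 ≤ w K (j + 1) := w_monotone K hK (by omega)
        have m2 : w K 4 ≤ w K (j + 2) := w_monotone K hK (by omega)
        rw [w_three] at m1
        rw [w_four] at m2
        obtain ⟨u, hu⟩ : ∃ u, u = K - 2 := ⟨_, rfl⟩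
        have hu3 : 3 ≤ u := by omega
        have hus : (s : ℤ) ≤ u := by omega
        have m1' : u ^ 2 ≤ a := by
          have : (K - 1) ^ 2 = (u + 1) ^ 2 := by rw [hu]; ring
          nlinarith
        have m2' : u ^ 3 ≤ b := by
          have : K * (K - 2) ^ 2 = (u + 2) * u ^ 2 := by rw [hu]; ring
          nlinarith [sq_nonneg u, pow_pos (show 0 < u by omega) 3]
        have m3 : (s : ℤ) ^ 5 ≤ n := by
          calc (s : ℤ) ^ 5 ≤ u ^ 5 := by gcongr
            _ = u ^ 2 * u ^ 3 := by ring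
            _ ≤ (a : ℤ) * b := mul_le_mul m1' m2' (by positivity) (by positivity)
            _ = n := by exact_mod_cast hab
        have m4 : s ^ 5 ≤ n := by exact_mod_cast m3
        omega
      · rw [Finset.mem_range]
        have g1 := w_pow K (by omega) (j + 1)
        have g2 := w_pow K (by omega) (j + 2)
        have g3 : (1 : ℤ) ≤ 2 ^ j := one_le_pow₀ (by norm_num)
        have g4 : (2 : ℤ) ^ j ≤ a := by
          rw [pow_succ] at g1
          omega
        have g5 : (2 : ℤ) ^ j ≤ b := by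
          rw [pow_succ, pow_succ] at g2
          omega
        have g4' : 2 ^ j ≤ a := by exact_mod_cast g4
        have g5' : 2 ^ j ≤ b := by exact_mod_cast g5
        have g6 : 2 ^ (2 * j) ≤ X := by
          refine le_trans ?_ (show n ≤ X by omega)
          rw [two_mul, pow_add, ← hab]
          exact Nat.mul_le_mul g4' g5'
        have g7 : 2 * j ≤ Nat.log 2 X := Nat.le_log_of_pow_le (by norm_num) g6
        simp only
        omega
  refine (Finset.card_le_card hsub).trans (Finset.card_image_le.trans ((Finset.card_union_le _ _).trans ?_))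
  simp

theorem crystals_card (m : ℕ) : m ≤ (crystals (4 * (m + 2) ^ 3)).card := by
  have hmono : StrictMono (fun k : ℕ => (2 * k + 5) * (2 * k ^ 2 + 8 * k + 7)) := by
    apply strictMono_nat_of_lt_succ
    intro k
    apply Nat.mul_lt_mul''
    · omega
    · nlinarith
  have key : (Finset.range m).card ≤ (crystals (4 * (m + 2) ^ 3)).card := by
    refine Finset.card_le_card_of_injOn (fun k : ℕ => (2 * k + 5) * (2 * k ^ 2 + 8 * k + 7)) ?_
      hmono.injective.injOn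
    intro k hk
    have hk' : k < m := by simpa using hk
    clear hk
    show (2 * k + 5) * (2 * k ^ 2 + 8 * k + 7) ∈ crystals (4 * (m + 2) ^ 3)
    rw [crystals, Finset.mem_filter, Finset.mem_range]
    refine ⟨?_, ?_, ?_⟩
    · obtain ⟨d, rfl⟩ := Nat.exists_eq_add_of_lt hk'
      have h1 : (k + 3) ^ 3 ≤ (k + d + 1 + 2) ^ 3 := Nat.pow_le_pow_left (by omega) 3
      have h2 : (2 * k + 5) * (2 * k ^ 2 + 8 * k + 7) < 4 * (k + 3) ^ 3 + 1 := by
        ring_nf
        nlinarith [Nat.zero_le k, Nat.zero_le (k^2), Nat.zero_le (k^3)]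
      omega
    · exact Odd.mul ⟨k + 2, by ring⟩ ⟨k ^ 2 + 4 * k + 3, by ring⟩
    · rw [Nat.one_le_iff_ne_zero, Finset.card_ne_zero]
      refine ⟨(2 * k + 5, 2 * k ^ 2 + 8 * k + 7), ?_⟩
      rw [componentPairs, Finset.mem_filter, Nat.mem_divisorsAntidiagonal]
      refine ⟨⟨rfl, by positivity⟩, by simp only; omega, by simp only; nlinarith, ?_⟩
      exact ⟨(k + 3) * (2 * k ^ 2 + 6 * k + 5), by ring⟩
  rwa [Finset.card_range] at key

open Filter Topology

theorem rp (x : ℝ) (hx : 0 ≤ x) (k : ℕ) (hk : k ≠ 0) : (x ^ (1 / (k : ℝ))) ^ k = x := by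
  rw [← Real.rpow_natCast, ← Real.rpow_mul hx]
  have : (1 / (k : ℝ)) * k = 1 := by
    have : (k : ℝ) ≠ 0 := by exact_mod_cast hk
    field_simp
  rw [this, Real.rpow_one]

theorem exc_real (X : ℕ) (hX : 1 ≤ X) : ((exceptional X).card : ℝ) ≤ 98 * (X : ℝ) ^ (1 / 4 : ℝ) := by
  have hx : (1 : ℝ) ≤ (X : ℝ) := by exact_mod_cast hX
  have hx0 : (0 : ℝ) ≤ (X : ℝ) := by linarith
  obtain ⟨u, hu⟩ : ∃ u : ℝ, u = (X : ℝ) ^ (1 / 4 : ℝ) := ⟨_, rfl⟩
  obtain ⟨z, hz⟩ : ∃ z : ℝ, z = (X : ℝ) ^ (1 / 5 : ℝ) := ⟨_, rfl⟩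
  obtain ⟨y, hy⟩ : ∃ y : ℝ, y = (X : ℝ) ^ (1 / 30 : ℝ) := ⟨_, rfl⟩
  have hu1 : 1 ≤ u := by rw [hu]; exact Real.one_le_rpow hx (by norm_num)
  have hz1 : 1 ≤ z := by rw [hz]; exact Real.one_le_rpow hx (by norm_num)
  have hy1 : 1 ≤ y := by rw [hy]; exact Real.one_le_rpow hx (by norm_num)
  have hs : X < (⌊z⌋₊ + 1) ^ 5 := by
    have h1 : z < ⌊z⌋₊ + 1 := Nat.lt_floor_add_one z
    have h2 : z ^ 5 < ((⌊z⌋₊ : ℝ) + 1) ^ 5 := by gcongr
    have h3 : z ^ 5 = X := by rw [hz]; exact_mod_cast rp X hx0 5 (by norm_num)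
    rw [h3] at h2
    exact_mod_cast h2
  have ht : X < (⌊u⌋₊ + 1) ^ 4 := by
    have h1 : u < ⌊u⌋₊ + 1 := Nat.lt_floor_add_one u
    have h2 : u ^ 4 < ((⌊u⌋₊ : ℝ) + 1) ^ 4 := by gcongr
    have h3 : u ^ 4 = X := by rw [hu]; exact_mod_cast rp X hx0 4 (by norm_num)
    rw [h3] at h2
    exact_mod_cast h2
  have h := exc_card X _ _ hs ht
  have h' : ((exceptional X).card : ℝ) ≤
      ((⌊u⌋₊ : ℝ) + 1) + (((⌊z⌋₊ : ℝ) + 1) + 2) * (((Nat.log 2 X / 2 : ℕ) : ℝ) + 1) := by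
    exact_mod_cast h
  have a1 : (⌊u⌋₊ : ℝ) ≤ u := Nat.floor_le (by linarith)
  have a2 : (⌊z⌋₊ : ℝ) ≤ z := Nat.floor_le (by linarith)
  have a3 : ((Nat.log 2 X / 2 : ℕ) : ℝ) ≤ (Nat.log 2 X : ℝ) / 2 := by
    have := @Nat.cast_div_le ℝ _ _ _ (Nat.log 2 X) 2
    simpa using this
  have a4 : (Nat.log 2 X : ℝ) * Real.log 2 ≤ Real.log X := by
    rw [← Real.log_pow]
    apply Real.log_le_log (by positivity)
    exact_mod_cast Nat.pow_log_le_self 2 (by omega)
  have a5 : Real.log X ≤ 30 * y := by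
    have := Real.log_le_rpow_div hx0 (show (0 : ℝ) < 1 / 30 by norm_num)
    rw [← hy] at this
    linarith
  have a6 := Real.log_two_gt_d9
  have a7 : (Nat.log 2 X : ℝ) ≤ 44 * y := by
    have h0 : (0 : ℝ) ≤ (Nat.log 2 X : ℝ) := by positivity
    nlinarith
  have a8 : ((Nat.log 2 X / 2 : ℕ) : ℝ) + 1 ≤ 23 * y := by linarith
  have a9 : (((⌊z⌋₊ : ℝ) + 1) + 2) ≤ 4 * z := by linarith
  have a10 : y * z ≤ u := by
    rw [hy, hz, hu, ← Real.rpow_add (by linarith)]
    exact Real.rpow_le_rpow_of_exponent_le hx (by norm_num)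
  have a11 : (((⌊z⌋₊ : ℝ) + 1) + 2) * (((Nat.log 2 X / 2 : ℕ) : ℝ) + 1) ≤ (4 * z) * (23 * y) :=
    mul_le_mul a9 a8 (by positivity) (by linarith)
  rw [← hu]
  nlinarith

theorem crys_real (X : ℕ) (hX : 30 ≤ (X : ℝ) ^ (1 / 3 : ℝ)) :
    (X : ℝ) ^ (1 / 3 : ℝ) / 2 ≤ ((crystals X).card : ℝ) := by
  obtain ⟨v, hv⟩ : ∃ v : ℝ, v = (X : ℝ) ^ (1 / 3 : ℝ) := ⟨_, rfl⟩
  rw [← hv] at hX ⊢
  have h3 : v ^ 3 = X := by rw [hv]; exact_mod_cast rp X (by positivity) 3 (by norm_num)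
  have b1 : (⌊3 / 5 * v⌋₊ : ℝ) ≤ 3 / 5 * v := Nat.floor_le (by linarith)
  have b2 : 3 / 5 * v < ⌊3 / 5 * v⌋₊ + 1 := Nat.lt_floor_add_one _
  obtain ⟨m, hm⟩ : ∃ m, ⌊3 / 5 * v⌋₊ = m + 2 := by
    have : (2 : ℝ) < ⌊3 / 5 * v⌋₊ := by linarith
    have : 2 < ⌊3 / 5 * v⌋₊ := by exact_mod_cast this
    exact ⟨⌊3 / 5 * v⌋₊ - 2, by omega⟩
  rw [hm] at b1 b2
  push_cast at b1 b2
  have b3 : 4 * (m + 2) ^ 3 ≤ X := by
    have : (4 : ℝ) * (m + 2) ^ 3 ≤ X := by
      rw [← h3]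
      have : ((m : ℝ) + 2) ^ 3 ≤ (3 / 5 * v) ^ 3 := by gcongr
      have hv3 : 0 ≤ v ^ 3 := by positivity
      nlinarith
    exact_mod_cast this
  have b4 : (crystals (4 * (m + 2) ^ 3)).card ≤ (crystals X).card := by
    apply Finset.card_le_card
    intro n hn
    rw [crystals, Finset.mem_filter, Finset.mem_range] at hn ⊢
    exact ⟨by omega, hn.2⟩
  have b5 : (m : ℝ) ≤ ((crystals X).card : ℝ) := by
    exact_mod_cast (crystals_card m).trans b4
  linarith

/-- Almost all crystals have exactly one unordered pair of components: the number of odd `n ≤ X` with at least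
two pairs is at most `98 X^(1/4)`, and its ratio to the number of crystals `n ≤ X` tends to `0`. -/
theorem result :
    (∀ X : ℕ, 1 ≤ X → ((exceptional X).card : ℝ) ≤ 98 * (X : ℝ) ^ (1 / 4 : ℝ)) ∧
    Tendsto (fun X : ℕ => ((exceptional X).card : ℝ) / ((crystals X).card : ℝ)) atTop (𝓝 0) := by
  refine ⟨exc_real, ?_⟩
  have l1 : Tendsto (fun X : ℕ => 196 * (X : ℝ) ^ (-(1 / 12 : ℝ))) atTop (𝓝 0) := by
    have := ((tendsto_rpow_neg_atTop (show (0 : ℝ) < 1 / 12 by norm_num)).comp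
      (tendsto_natCast_atTop_atTop (R := ℝ))).const_mul 196
    simpa [Function.comp_def] using this
  have l2 : ∀ᶠ X : ℕ in atTop, 30 ≤ (X : ℝ) ^ (1 / 3 : ℝ) :=
    ((tendsto_rpow_atTop (show (0 : ℝ) < 1 / 3 by norm_num)).comp
      (tendsto_natCast_atTop_atTop (R := ℝ))).eventually_ge_atTop 30
  refine squeeze_zero' (Eventually.of_forall (fun X => by positivity)) ?_ l1
  filter_upwards [l2, eventually_ge_atTop 1] with X h1 h2
  have c1 := exc_real X h2
  have c2 := crys_real X h1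
  have hx : (0 : ℝ) < X := by exact_mod_cast h2
  have hpos : (0 : ℝ) < ((crystals X).card : ℝ) := by linarith
  rw [div_le_iff₀ hpos]
  calc ((exceptional X).card : ℝ) ≤ 98 * (X : ℝ) ^ (1 / 4 : ℝ) := c1
    _ = 196 * (X : ℝ) ^ (-(1 / 12 : ℝ)) * ((X : ℝ) ^ (1 / 3 : ℝ) / 2) := by
        have : (X : ℝ) ^ (1 / 4 : ℝ) = (X : ℝ) ^ (-(1 / 12 : ℝ)) * (X : ℝ) ^ (1 / 3 : ℝ) := by
          rw [← Real.rpow_add hx]; norm_num
        rw [this]; ring
    _ ≤ 196 * (X : ℝ) ^ (-(1 / 12 : ℝ)) * ((crystals X).card : ℝ) :=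
        mul_le_mul_of_nonneg_left c2 (by positivity)

end Pool.Agent.Results.MP_148e9f_nt.AlmostAll
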