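import Mathlib

set_option autoImplicit false

namespace Pool.Agent.Results.MP_148e9f_nt.LogPairs

/-- The finite set of unordered pairs of components of `n`, written as ordered pairs `(a,b)` with `1 < a ≤ b`,
`a * b = n` and `B(a,b)` an integer, i.e. `2(a+1)(b+1) ∣ (a+b)^2 + (ab+1)^2`. -/
def componentPairs (n : ℕ) : Finset (ℕ × ℕ) :=
  n.divisorsAntidiagonal.filter (fun p => 1 < p.1 ∧ p.1 ≤ p.2 ∧
    2 * (p.1 + 1) * (p.2 + 1) ∣ (p.1 + p.2) ^ 2 + (p.1 * p.2 + 1) ^ 2)

/-- auxiliary sequence -/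
def w (K : ℤ) : ℕ → ℤ
  | 0 => 0
  | 1 => 1
  | (j + 2) => (K - 2) * w K (j + 1) + 2 - w K j

theorem w_succ (K : ℤ) (j : ℕ) : w K (j + 2) = (K - 2) * w K (j + 1) + 2 - w K j := rfl

theorem chain (K : ℤ) (hK : 1 ≤ K) : ∀ s : ℕ, ∀ A B : ℤ, 1 ≤ A → A ≤ B → A ≤ s → Even A → Even B →
    (A + B - 2) ^ 2 = K * A * B → ∃ j, A = 2 * w K (j + 1) ∧ B = 2 * w K (j + 2) := by
  intro s
  induction s with
  | zero => intro A B h1 h2 h3; exfalso; push_cast at h3; omega
  | succ s ih =>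
    intro A B h1 h2 h3 hA hB h
    by_cases hA2 : A = 2
    · subst hA2
      have h4 : B * (B - 2 * K) = 0 := by linear_combination h
      have h5 : B = 2 * K := by
        rcases mul_eq_zero.1 h4 with h6 | h6
        · omega
        · omega
      refine ⟨0, ?_, ?_⟩
      · simp [w]
      · rw [w_succ]; simp [w]; exact h5
    · have hA4 : 4 ≤ A := by
        obtain ⟨r, hr⟩ := hA
        omega
      obtain ⟨A', hA'⟩ : ∃ A', A' = (K - 2) * A + 4 - B := ⟨_, rfl⟩
      have e1 : A' * B = (A - 2) ^ 2 := by rw [hA']; linear_combination -h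
      have hpos : 0 < A' := by
        by_contra hc
        push Not at hc
        have : A' * B ≤ 0 := mul_nonpos_of_nonpos_of_nonneg hc (by omega)
        have : 0 < (A - 2) ^ 2 := by have : 0 < A - 2 := by omega
                                     positivity
        omega
      have hlt : A' < A := by
        by_contra hc
        push Not at hc
        have : A * A ≤ A' * B := mul_le_mul hc h2 (by omega) (by omega)
        nlinarith
      have hev : Even A' := by
        rw [hA']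
        exact (((hA.mul_left (K - 2)).add (by decide)).sub hB)
      have e2 : (A' + A - 2) ^ 2 = K * A' * A := by
        have h7 : A' * (A' + 2 * A - 4 - K * A) = - (A' * B) := by rw [hA']; ring
        linear_combination h7 - e1
      obtain ⟨j, hj1, hj2⟩ := ih A' A (by omega) (by omega) (by push_cast at h3; omega) hev hA e2
      refine ⟨j + 1, hj2, ?_⟩
      rw [w_succ]
      have : B = (K - 2) * A + 4 - A' := by rw [hA']; ring
      rw [this, hj2, hj1]; ring

theorem w_mono4 (K : ℤ) (hK : 4 ≤ K) : ∀ j, 0 ≤ w K j ∧ w K j + 1 ≤ w K (j + 1) := by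
  intro j
  induction j with
  | zero => simp [w]
  | succ j ih =>
    refine ⟨by omega, ?_⟩
    rw [w_succ]
    nlinarith [ih.1, ih.2]

theorem w_two (K : ℤ) (hK : 5 ≤ K) : ∀ j, 0 ≤ w K j ∧ 2 * w K j + 1 ≤ w K (j + 1) := by
  intro j
  induction j with
  | zero => simp [w]
  | succ j ih =>
    refine ⟨by omega, ?_⟩
    rw [w_succ]
    nlinarith [ih.1, ih.2]

theorem w_pow (K : ℤ) (hK : 5 ≤ K) : ∀ j, 2 ^ j ≤ w K j + 1 := by
  intro j
  induction j with
  | zero => simp [w]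
  | succ j ih =>
    have := w_two K hK j
    rw [pow_succ]
    omega

theorem w_lt (K L : ℤ) (hK : 4 ≤ K) (hKL : K < L) : ∀ j, w K j ≤ w L j ∧
    w L j - w K j ≤ w L (j + 1) - w K (j + 1) := by
  intro j
  induction j with
  | zero => simp [w]
  | succ j ih =>
    refine ⟨by omega, ?_⟩
    rw [w_succ, w_succ]
    have h1 := (w_mono4 L (by omega) (j + 1)).1
    have h2 : 0 ≤ (L - K) * w L (j + 1) := mul_nonneg (by omega) h1
    have h3 : 0 ≤ (K - 4) * (w L (j + 1) - w K (j + 1)) := mul_nonneg (by omega) (by omega)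
    nlinarith [ih.1, ih.2]

theorem w_lt' (K L : ℤ) (hK : 4 ≤ K) (hKL : K < L) (j : ℕ) : w K (j + 2) < w L (j + 2) := by
  induction j with
  | zero => simp [w]; omega
  | succ j ih =>
    have := (w_lt K L hK hKL (j + 2)).2
    have e : j + 1 + 2 = j + 2 + 1 := by ring
    rw [e]
    omega


theorem getK {n a b : ℕ} (hn : Odd n) (hab : a * b = n) (h1 : 1 < a) (h2 : a ≤ b)
    (h3 : 2 * (a + 1) * (b + 1) ∣ (a + b) ^ 2 + (a * b + 1) ^ 2) (h35 : n ≠ 35) :
    ∃ (K : ℤ) (j : ℕ), 4 ≤ K ∧ 1 ≤ j ∧ (a : ℤ) + 1 = 2 * w K (j + 1) ∧ (b : ℤ) + 1 = 2 * w K (j + 2) := by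
  have ho : Odd (a * b) := hab ▸ hn
  obtain ⟨hoa, hob⟩ := Nat.odd_mul.1 ho
  obtain ⟨α, hα⟩ := hoa
  obtain ⟨β, hβ⟩ := hob
  obtain ⟨c, hc⟩ := h3
  have hc' : ((a : ℤ) + b) ^ 2 + (a * b + 1) ^ 2 = 2 * (a + 1) * (b + 1) * c := by exact_mod_cast hc
  have hα' : (a : ℤ) = 2 * α + 1 := by exact_mod_cast hα
  have hβ' : (b : ℤ) = 2 * β + 1 := by exact_mod_cast hβ
  obtain ⟨K, hK⟩ : ∃ K : ℤ, K = c + ((a : ℤ) + b) - (α + 1) * (b + 1) := ⟨_, rfl⟩
  have e : ((a : ℤ) + b) ^ 2 = K * (a + 1) * (b + 1) := by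
    rw [hK]
    have : 2 * ((a : ℤ) + b) ^ 2 = 2 * ((c + ((a : ℤ) + b) - (α + 1) * (b + 1)) * (a + 1) * (b + 1)) := by
      rw [hα'] at hc' ⊢
      linear_combination hc'
    linarith
  have ha1 : (1 : ℤ) < a := by exact_mod_cast h1
  have hb1 : (a : ℤ) ≤ b := by exact_mod_cast h2
  have hK1 : 1 ≤ K := by
    by_contra hc
    have : K ≤ 0 := by omega
    have h6 : K * ((a + 1) * (b + 1)) ≤ 0 := mul_nonpos_of_nonpos_of_nonneg this (by positivity)
    nlinarith
  have hK4 : 4 ≤ K := by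
    by_contra hc
    push Not at hc
    have hp : (0 : ℤ) ≤ (a + 1) * (b + 1) := by positivity
    have h7 : K * ((a + 1) * (b + 1)) ≤ 3 * (((a : ℤ) + 1) * (b + 1)) :=
      mul_le_mul_of_nonneg_right (by omega) hp
    have h8 : (a : ℤ) + b < 14 := by nlinarith [sq_nonneg ((a : ℤ) - b)]
    have h9 : α ≤ 6 := by omega
    have h10 : β ≤ 6 := by omega
    have h11 : 1 ≤ α := by omega
    have h12 : 1 ≤ β := by omega
    subst hα hβ
    interval_cases α <;> interval_cases β <;> first | omega | (exfalso; apply h35; omega)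
  obtain ⟨j, hj1, hj2⟩ := chain K hK1 (a + 1) (a + 1) (b + 1) (by omega) (by omega) (by push_cast; omega)
    ⟨(α : ℤ) + 1, by rw [hα']; ring⟩ ⟨(β : ℤ) + 1, by rw [hβ']; ring⟩ (by rw [← e]; ring)
  refine ⟨K, j, hK4, ?_, hj1, hj2⟩
  rcases Nat.eq_zero_or_pos j with h0 | h0
  · subst h0
    simp [w] at hj1
    omega
  · exact h0

/-- relation used for counting -/
def R (p : ℕ × ℕ) (j : ℕ) : Prop :=
  (j = 0 ∧ ∃ i : ℕ, (p.1 : ℤ) + 1 = 2 * w 4 (i + 1) ∧ (p.2 : ℤ) + 1 = 2 * w 4 (i + 2)) ∨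
  (1 ≤ j ∧ ∃ K : ℤ, 5 ≤ K ∧ (p.1 : ℤ) + 1 = 2 * w K (j + 1) ∧ (p.2 : ℤ) + 1 = 2 * w K (j + 2))

theorem mul_ne {a b c d : ℕ} (h : a < c) (h' : b < d) (e : a * b = c * d) : False := by
  have : a * b < c * d := Nat.mul_lt_mul'' h h'
  omega

theorem w4_strict : StrictMono (w 4) := strictMono_nat_of_lt_succ (fun j => by
  have := (w_mono4 4 le_rfl j).2
  omega)

theorem aux4 {a b c d i i' : ℕ} (e : a * b = c * d) (hlt : i < i')
    (h1 : (a : ℤ) + 1 = 2 * w 4 (i + 1)) (h2 : (b : ℤ) + 1 = 2 * w 4 (i + 2))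
    (h3 : (c : ℤ) + 1 = 2 * w 4 (i' + 1)) (h4 : (d : ℤ) + 1 = 2 * w 4 (i' + 2)) : False := by
  have g1 := w4_strict (show i + 1 < i' + 1 by omega)
  have g2 := w4_strict (show i + 2 < i' + 2 by omega)
  exact mul_ne (show a < c by omega) (show b < d by omega) e

theorem auxK {a b c d j : ℕ} {K L : ℤ} (hj : 1 ≤ j) (hK : 5 ≤ K) (e : a * b = c * d) (hlt : K < L)
    (h1 : (a : ℤ) + 1 = 2 * w K (j + 1)) (h2 : (b : ℤ) + 1 = 2 * w K (j + 2))
    (h3 : (c : ℤ) + 1 = 2 * w L (j + 1)) (h4 : (d : ℤ) + 1 = 2 * w L (j + 2)) : False := by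
  obtain ⟨i, rfl⟩ := Nat.exists_eq_add_of_le' hj
  have g1 := w_lt' K L (by omega) hlt i
  have g2 := w_lt' K L (by omega) hlt (i + 1)
  have e1 : i + 1 + 1 = i + 2 := rfl
  rw [e1] at h1 h3
  exact mul_ne (show a < c by omega) (show b < d by omega) e

/-- Every odd positive integer `n` has at most `(log₂ n) / 2 + 1` unordered pairs of components. -/
theorem result : ∀ n : ℕ, Odd n → (componentPairs n).card ≤ Nat.log 2 n / 2 + 1 := by
  intro n hn
  by_cases h35 : n = 35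
  · subst h35
    have : (componentPairs 35).card ≤ 1 := by decide +kernel
    omega
  have hcard : (componentPairs n).card ≤ (Finset.range (Nat.log 2 n / 2 + 1)).card := by
    refine Finset.card_le_card_of_forall_subsingleton R ?_ ?_
    · intro p hp
      rw [componentPairs, Finset.mem_filter, Nat.mem_divisorsAntidiagonal] at hp
      obtain ⟨⟨hp1, hp0⟩, hp2, hp3, hp4⟩ := hp
      obtain ⟨K, j, hK, hj, e1, e2⟩ := getK hn hp1 hp2 hp3 hp4 h35
      by_cases hK4 : K = 4
      · subst hK4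
        exact ⟨0, by simp, Or.inl ⟨rfl, j, e1, e2⟩⟩
      · refine ⟨j, ?_, Or.inr ⟨hj, K, by omega, e1, e2⟩⟩
        rw [Finset.mem_range]
        have g1 := w_pow K (by omega) (j + 1)
        have g2 := w_pow K (by omega) (j + 2)
        have g3 : (1 : ℤ) ≤ 2 ^ j := one_le_pow₀ (by norm_num)
        have g4 : (2 : ℤ) ^ j ≤ p.1 := by
          rw [pow_succ] at g1
          omega
        have g5 : (2 : ℤ) ^ j ≤ p.2 := by
          rw [pow_succ, pow_succ] at g2
          omega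
        have g4' : 2 ^ j ≤ p.1 := by exact_mod_cast g4
        have g5' : 2 ^ j ≤ p.2 := by exact_mod_cast g5
        have g6 : 2 ^ (2 * j) ≤ n := by
          rw [two_mul, pow_add, ← hp1]
          exact Nat.mul_le_mul g4' g5'
        have g7 : 2 * j ≤ Nat.log 2 n := Nat.le_log_of_pow_le (by norm_num) g6
        omega
    · intro j hj p hp q hq
      simp only [Set.mem_setOf_eq, componentPairs, Finset.mem_filter, Nat.mem_divisorsAntidiagonal] at hp hq
      obtain ⟨⟨⟨hp1, -⟩, -⟩, hpR⟩ := hp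
      obtain ⟨⟨⟨hq1, -⟩, -⟩, hqR⟩ := hq
      have e : p.1 * p.2 = q.1 * q.2 := by rw [hp1, hq1]
      rcases hpR with ⟨hj0, i, a1, a2⟩ | ⟨hj1, K, hK, a1, a2⟩
      · rcases hqR with ⟨-, i', b1, b2⟩ | ⟨hj1, -⟩
        · rcases lt_trichotomy i i' with h | h | h
          · exact (aux4 e h a1 a2 b1 b2).elim
          · subst h
            ext <;> omega
          · exact (aux4 e.symm h b1 b2 a1 a2).elim
        · omega
      · rcases hqR with ⟨hj0, -⟩ | ⟨-, L, hL, b1, b2⟩
        · omega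
        · rcases lt_trichotomy K L with h | h | h
          · exact (auxK hj1 hK e h a1 a2 b1 b2).elim
          · subst h
            ext <;> omega
          · exact (auxK hj1 hL e.symm h b1 b2 a1 a2).elim
  simpa using hcard

end Pool.Agent.Results.MP_148e9f_nt.LogPairs
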